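import Mathlib

/-!
Analysis on the cube `s.powerset` (helper59): edge energy, level one coefficients,
the inequality `N * energy ≥ 4 (N S2 - S1^2) - 2 * level one weight`, and the fourth moment
bound for the level one weight of a family.
-/

set_option autoImplicit false

namespace Pool.Agent.Lib.MP_ff7426_co.H59

open Finset

variable {α : Type*} [DecidableEq α]

/-- the edges of the cube, each counted once -/
noncomputable def energy (s : Finset α) (f : Finset α → ℝ) : ℝ :=
  ∑ i ∈ s, ∑ t ∈ (s.erase i).powerset, (f t - f (insert i t)) ^ 2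

/-- level one coefficient -/
noncomputable def lev (s : Finset α) (f : Finset α → ℝ) (i : α) : ℝ :=
  ∑ t ∈ (s.erase i).powerset, (f (insert i t) - f t)

theorem energy_insert (s : Finset α) (a : α) (ha : a ∉ s) (f : Finset α → ℝ) :
    energy (insert a s) f = energy s f + energy s (fun t => f (insert a t))
      + ∑ t ∈ s.powerset, (f t - f (insert a t)) ^ 2 := by
  unfold energy
  rw [Finset.sum_insert ha]
  have h1 : (insert a s).erase a = s := Finset.erase_insert ha
  rw [h1, add_comm, ← Finset.sum_add_distrib]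
  congr 1
  apply Finset.sum_congr rfl
  intro i hi
  have hia : i ≠ a := fun h => ha (h ▸ hi)
  have h2 : (insert a s).erase i = insert a (s.erase i) := by
    rw [Finset.erase_insert_of_ne (Ne.symm hia)]
  have h3 : a ∉ s.erase i := fun h => ha (Finset.mem_of_mem_erase h)
  rw [h2, Finset.sum_powerset_insert h3]
  congr 1
  apply Finset.sum_congr rfl
  intro t _
  rw [Finset.insert_comm]

theorem lev_insert (s : Finset α) (a : α) (ha : a ∉ s) (f : Finset α → ℝ) (i : α) (hi : i ∈ s) :
    lev (insert a s) f i = lev s f i + lev s (fun t => f (insert a t)) i := by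
  unfold lev
  have hia : i ≠ a := fun h => ha (h ▸ hi)
  have h2 : (insert a s).erase i = insert a (s.erase i) := by
    rw [Finset.erase_insert_of_ne (Ne.symm hia)]
  have h3 : a ∉ s.erase i := fun h => ha (Finset.mem_of_mem_erase h)
  rw [h2, Finset.sum_powerset_insert h3]
  congr 1
  apply Finset.sum_congr rfl
  intro t _
  rw [Finset.insert_comm]

theorem lev_insert_self (s : Finset α) (a : α) (ha : a ∉ s) (f : Finset α → ℝ) :
    lev (insert a s) f a = ∑ t ∈ s.powerset, (f (insert a t) - f t) := by
  unfold lev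
  rw [Finset.erase_insert ha]

theorem energy_nonneg (s : Finset α) (f : Finset α → ℝ) : 0 ≤ energy s f :=
  Finset.sum_nonneg fun _ _ => Finset.sum_nonneg fun _ _ => sq_nonneg _

theorem energy_par (s : Finset α) (f g : Finset α → ℝ) :
    energy s (fun t => f t + g t) + energy s (fun t => f t - g t)
      = 2 * (energy s f + energy s g) := by
  unfold energy
  rw [← Finset.sum_add_distrib, ← Finset.sum_add_distrib, Finset.mul_sum]
  apply Finset.sum_congr rfl
  intro i _
  rw [← Finset.sum_add_distrib, ← Finset.sum_add_distrib, Finset.mul_sum]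
  apply Finset.sum_congr rfl
  intro t _
  ring

theorem lev_add (s : Finset α) (f g : Finset α → ℝ) (i : α) :
    lev s (fun t => f t + g t) i = lev s f i + lev s g i := by
  unfold lev
  rw [← Finset.sum_add_distrib]
  apply Finset.sum_congr rfl
  intro t _
  ring

theorem poincare (s : Finset α) : ∀ f : Finset α → ℝ,
    2 * ((2 : ℝ) ^ s.card * ∑ t ∈ s.powerset, f t ^ 2 - (∑ t ∈ s.powerset, f t) ^ 2)
      ≤ (2 : ℝ) ^ s.card * energy s f := by
  induction s using Finset.induction_on with
  | empty => intro f; simp [energy]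
  | insert a s ha ih =>
    intro f
    have hg := ih (fun t => f t + f (insert a t))
    have hen := energy_par s f (fun t => f (insert a t))
    have hh0 := energy_nonneg s (fun t => f t - f (insert a t))
    rw [energy_insert s a ha f, Finset.sum_powerset_insert ha, Finset.sum_powerset_insert ha,
      Finset.card_insert_of_notMem ha, pow_succ]
    have e1 : ∑ t ∈ s.powerset, (f t + f (insert a t)) ^ 2
        + ∑ t ∈ s.powerset, (f t - f (insert a t)) ^ 2
        = 2 * (∑ t ∈ s.powerset, f t ^ 2 + ∑ t ∈ s.powerset, f (insert a t) ^ 2) := by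
      rw [← Finset.sum_add_distrib, ← Finset.sum_add_distrib, Finset.mul_sum]
      apply Finset.sum_congr rfl
      intro t _
      ring
    rw [Finset.sum_add_distrib] at hg
    have hN : (0 : ℝ) < 2 ^ s.card := by positivity
    set N : ℝ := 2 ^ s.card
    set A := ∑ t ∈ s.powerset, (f t + f (insert a t)) ^ 2
    set B := ∑ t ∈ s.powerset, (f t - f (insert a t)) ^ 2
    set S := ∑ t ∈ s.powerset, f t + ∑ t ∈ s.powerset, f (insert a t)
    have e2 : ∑ t ∈ s.powerset, f t ^ 2 + ∑ t ∈ s.powerset, f (insert a t) ^ 2 = (A + B) / 2 := by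
      linarith
    have e3 : energy s f + energy s (fun t => f (insert a t)) =
        (energy s (fun t => f t + f (insert a t)) + energy s (fun t => f t - f (insert a t))) / 2 := by
      linarith
    rw [e2, e3]
    nlinarith [mul_nonneg hN.le hh0]

theorem levelOne (s : Finset α) : ∀ f : Finset α → ℝ,
    4 * ((2 : ℝ) ^ s.card * ∑ t ∈ s.powerset, f t ^ 2 - (∑ t ∈ s.powerset, f t) ^ 2)
      - 2 * ∑ i ∈ s, (lev s f i) ^ 2
      ≤ (2 : ℝ) ^ s.card * energy s f := by
  induction s using Finset.induction_on with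
  | empty => intro f; simp [energy]
  | insert a s ha ih =>
    intro f
    have hg := ih (fun t => f t + f (insert a t))
    have hp := poincare s (fun t => f t - f (insert a t))
    have hen := energy_par s f (fun t => f (insert a t))
    rw [energy_insert s a ha f, Finset.sum_powerset_insert ha, Finset.sum_powerset_insert ha,
      Finset.card_insert_of_notMem ha, pow_succ, Finset.sum_insert ha, lev_insert_self s a ha f]
    have hl : ∑ i ∈ s, lev (insert a s) f i ^ 2
        = ∑ i ∈ s, lev s (fun t => f t + f (insert a t)) i ^ 2 := by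
      apply Finset.sum_congr rfl
      intro i hi
      rw [lev_insert s a ha f i hi, lev_add]
    rw [hl]
    have e1 : ∑ t ∈ s.powerset, (f t + f (insert a t)) ^ 2
        + ∑ t ∈ s.powerset, (f t - f (insert a t)) ^ 2
        = 2 * (∑ t ∈ s.powerset, f t ^ 2 + ∑ t ∈ s.powerset, f (insert a t) ^ 2) := by
      rw [← Finset.sum_add_distrib, ← Finset.sum_add_distrib, Finset.mul_sum]
      apply Finset.sum_congr rfl
      intro t _
      ring
    have e0 : (∑ t ∈ s.powerset, (f (insert a t) - f t)) ^ 2
        = (∑ t ∈ s.powerset, (f t - f (insert a t))) ^ 2 := by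
      rw [← neg_sq, ← Finset.sum_neg_distrib]
      congr 1
      apply Finset.sum_congr rfl
      intro t _
      ring
    rw [e0]
    rw [Finset.sum_add_distrib] at hg
    have hN : (0 : ℝ) < 2 ^ s.card := by positivity
    set N : ℝ := 2 ^ s.card
    set A := ∑ t ∈ s.powerset, (f t + f (insert a t)) ^ 2
    set B := ∑ t ∈ s.powerset, (f t - f (insert a t)) ^ 2
    set S := ∑ t ∈ s.powerset, f t + ∑ t ∈ s.powerset, f (insert a t)
    set H := ∑ t ∈ s.powerset, (f t - f (insert a t))
    set W := ∑ i ∈ s, lev s (fun t => f t + f (insert a t)) i ^ 2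
    have e2 : ∑ t ∈ s.powerset, f t ^ 2 + ∑ t ∈ s.powerset, f (insert a t) ^ 2 = (A + B) / 2 := by
      linarith
    have e3 : energy s f + energy s (fun t => f (insert a t)) =
        (energy s (fun t => f t + f (insert a t)) + energy s (fun t => f t - f (insert a t))) / 2 := by
      linarith
    rw [e2, e3]
    nlinarith

/-- random sign sum attached to `t` -/
noncomputable def ell (s : Finset α) (q : α → ℝ) (t : Finset α) : ℝ :=
  ∑ i ∈ s, if i ∈ t then q i else - q i

theorem ell_insert_left (s : Finset α) (a : α) (ha : a ∉ s) (q : α → ℝ) (t : Finset α)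
    (ht : t ⊆ s) : ell (insert a s) q t = ell s q t - q a := by
  unfold ell
  rw [Finset.sum_insert ha, if_neg (fun h => ha (ht h))]
  ring

theorem ell_insert_right (s : Finset α) (a : α) (ha : a ∉ s) (q : α → ℝ) (t : Finset α) :
    ell (insert a s) q (insert a t) = ell s q t + q a := by
  unfold ell
  rw [Finset.sum_insert ha, if_pos (Finset.mem_insert_self a t), add_comm]
  congr 1
  apply Finset.sum_congr rfl
  intro i hi
  have hia : i ≠ a := fun h => ha (h ▸ hi)
  simp [Finset.mem_insert, hia]

theorem ell_sq (s : Finset α) (q : α → ℝ) :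
    ∑ t ∈ s.powerset, ell s q t ^ 2 = (2 : ℝ) ^ s.card * ∑ i ∈ s, q i ^ 2 := by
  induction s using Finset.induction_on with
  | empty => simp [ell]
  | insert a s ha ih =>
    rw [Finset.sum_powerset_insert ha, Finset.card_insert_of_notMem ha, Finset.sum_insert ha,
      ← Finset.sum_add_distrib]
    have : ∀ t ∈ s.powerset, ell (insert a s) q t ^ 2 + ell (insert a s) q (insert a t) ^ 2
        = 2 * ell s q t ^ 2 + 2 * q a ^ 2 := by
      intro t ht
      rw [ell_insert_left s a ha q t (Finset.mem_powerset.1 ht), ell_insert_right s a ha q t]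
      ring
    rw [Finset.sum_congr rfl this, Finset.sum_add_distrib, ← Finset.mul_sum, ih,
      Finset.sum_const, Finset.card_powerset, nsmul_eq_mul]
    push_cast
    ring

theorem ell_four (s : Finset α) (q : α → ℝ) :
    ∑ t ∈ s.powerset, ell s q t ^ 4 ≤ 3 * (2 : ℝ) ^ s.card * (∑ i ∈ s, q i ^ 2) ^ 2 := by
  induction s using Finset.induction_on with
  | empty => simp [ell]
  | insert a s ha ih =>
    rw [Finset.sum_powerset_insert ha, Finset.card_insert_of_notMem ha, Finset.sum_insert ha,
      ← Finset.sum_add_distrib]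
    have : ∀ t ∈ s.powerset, ell (insert a s) q t ^ 4 + ell (insert a s) q (insert a t) ^ 4
        = 2 * ell s q t ^ 4 + 12 * q a ^ 2 * ell s q t ^ 2 + 2 * q a ^ 4 := by
      intro t ht
      rw [ell_insert_left s a ha q t (Finset.mem_powerset.1 ht), ell_insert_right s a ha q t]
      ring
    rw [Finset.sum_congr rfl this, Finset.sum_add_distrib, Finset.sum_add_distrib,
      ← Finset.mul_sum, ← Finset.mul_sum, ell_sq, Finset.sum_const, Finset.card_powerset,
      nsmul_eq_mul]
    push_cast
    have hN : (0 : ℝ) < 2 ^ s.card := by positivity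
    have h4 : (0 : ℝ) ≤ (2 : ℝ) ^ s.card * q a ^ 4 := by positivity
    rw [pow_succ (2 : ℝ) s.card]
    nlinarith

/-- sign -/
def sg (i : α) (t : Finset α) : ℝ := if i ∈ t then 1 else -1

/-- `#(members containing i) - #(members missing i)` -/
noncomputable def L (G : Finset (Finset α)) (i : α) : ℝ := ∑ t ∈ G, sg i t

theorem level_weight (s : Finset α) (G : Finset (Finset α)) (hG : G ⊆ s.powerset) :
    (∑ i ∈ s, L G i ^ 2) ^ 2 ≤ 3 * (G.card : ℝ) ^ 3 * (2 : ℝ) ^ s.card := by
  set W := ∑ i ∈ s, L G i ^ 2 with hW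
  have hW0 : 0 ≤ W := Finset.sum_nonneg fun _ _ => sq_nonneg _
  have h1 : W = ∑ t ∈ G, ell s (L G) t := by
    unfold ell
    rw [Finset.sum_comm, hW]
    apply Finset.sum_congr rfl
    intro i _
    have : ∀ t ∈ G, (if i ∈ t then L G i else - L G i) = L G i * sg i t := by
      intro t _
      unfold sg
      split_ifs <;> ring
    rw [Finset.sum_congr rfl this, ← Finset.mul_sum]
    change _ = L G i * L G i
    ring
  have h2 : W ^ 2 ≤ G.card * ∑ t ∈ G, ell s (L G) t ^ 2 := by
    rw [h1]; exact sq_sum_le_card_mul_sum_sq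
  have h3 : (∑ t ∈ G, ell s (L G) t ^ 2) ^ 2 ≤ G.card * ∑ t ∈ G, (ell s (L G) t ^ 2) ^ 2 :=
    sq_sum_le_card_mul_sum_sq
  have h4 : ∑ t ∈ G, (ell s (L G) t ^ 2) ^ 2 ≤ ∑ t ∈ s.powerset, ell s (L G) t ^ 4 := by
    have : ∀ t, (ell s (L G) t ^ 2) ^ 2 = ell s (L G) t ^ 4 := fun t => by ring
    rw [Finset.sum_congr rfl fun t _ => this t]
    exact Finset.sum_le_sum_of_subset_of_nonneg hG fun _ _ _ => by positivity
  have h5 := ell_four s (L G)
  rw [← hW] at h5
  have hc : (0 : ℝ) ≤ G.card := Nat.cast_nonneg _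
  have hS : 0 ≤ ∑ t ∈ G, ell s (L G) t ^ 2 := Finset.sum_nonneg fun _ _ => sq_nonneg _
  -- W^4 ≤ c^2 S^2 ≤ c^3 * sum4 ≤ 3 c^3 N W^2
  have h6 : (W ^ 2) ^ 2 ≤ (3 * (G.card : ℝ) ^ 3 * (2 : ℝ) ^ s.card) * W ^ 2 := by
    calc (W ^ 2) ^ 2 ≤ (G.card * ∑ t ∈ G, ell s (L G) t ^ 2) ^ 2 := by
          apply pow_le_pow_left₀ (sq_nonneg W) h2
      _ = (G.card : ℝ) ^ 2 * (∑ t ∈ G, ell s (L G) t ^ 2) ^ 2 := by ring
      _ ≤ (G.card : ℝ) ^ 2 * (G.card * ∑ t ∈ G, (ell s (L G) t ^ 2) ^ 2) := by
          apply mul_le_mul_of_nonneg_left h3 (by positivity)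
      _ ≤ (G.card : ℝ) ^ 2 * (G.card * (3 * (2 : ℝ) ^ s.card * W ^ 2)) := by
          apply mul_le_mul_of_nonneg_left _ (by positivity)
          apply mul_le_mul_of_nonneg_left (h4.trans h5) hc
      _ = _ := by ring
  rcases eq_or_lt_of_le hW0 with h | h
  · rw [← h]
    simp
  · have hW2 : 0 < W ^ 2 := by positivity
    nlinarith [h6]

end Pool.Agent.Lib.MP_ff7426_co.H59
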