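import Pool.Agent.Lib.MP_ff7426_co.H59.Union

/-!
Dense union-closed families have two half-frequent elements (helper59).
-/

set_option autoImplicit false

namespace Pool.Agent.Lib.MP_ff7426_co.H59

open Finset

variable {α : Type*} [DecidableEq α]

/-- members missing `x` -/
def F0 (F : Finset (Finset α)) (x : α) : Finset (Finset α) := F.filter (fun A => x ∉ A)

/-- members containing `x`, with `x` removed -/
def F1 (F : Finset (Finset α)) (x : α) : Finset (Finset α) :=
  (F.filter (fun A => x ∈ A)).image (fun A => A.erase x)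

theorem F0_sub (s : Finset α) (F : Finset (Finset α)) (hF : F ⊆ s.powerset) (x : α) :
    F0 F x ⊆ (s.erase x).powerset := by
  intro A hA
  unfold F0 at hA
  rw [Finset.mem_filter] at hA
  rw [Finset.mem_powerset]
  intro y hy
  have := Finset.mem_powerset.1 (hF hA.1) hy
  rw [Finset.mem_erase]
  exact ⟨fun h => hA.2 (h ▸ hy), this⟩

theorem F1_sub (s : Finset α) (F : Finset (Finset α)) (hF : F ⊆ s.powerset) (x : α) :
    F1 F x ⊆ (s.erase x).powerset := by
  intro A hA
  unfold F1 at hA
  rw [Finset.mem_image] at hA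
  obtain ⟨B, hB, rfl⟩ := hA
  rw [Finset.mem_filter] at hB
  rw [Finset.mem_powerset]
  exact Finset.erase_subset_erase x (Finset.mem_powerset.1 (hF hB.1))

theorem F0_union (F : Finset (Finset α)) (hU : ∀ A ∈ F, ∀ B ∈ F, A ∪ B ∈ F) (x : α) :
    ∀ A ∈ F0 F x, ∀ B ∈ F0 F x, A ∪ B ∈ F0 F x := by
  intro A hA B hB
  unfold F0 at *
  rw [Finset.mem_filter] at *
  refine ⟨hU A hA.1 B hB.1, ?_⟩
  rw [Finset.mem_union]
  exact fun h => h.elim hA.2 hB.2

theorem F1_union (F : Finset (Finset α)) (hU : ∀ A ∈ F, ∀ B ∈ F, A ∪ B ∈ F) (x : α) :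
    ∀ A ∈ F1 F x, ∀ B ∈ F1 F x, A ∪ B ∈ F1 F x := by
  intro A hA B hB
  unfold F1 at *
  rw [Finset.mem_image] at *
  obtain ⟨C, hC, rfl⟩ := hA
  obtain ⟨D, hD, rfl⟩ := hB
  rw [Finset.mem_filter] at hC hD
  refine ⟨C ∪ D, ?_, ?_⟩
  · rw [Finset.mem_filter]
    exact ⟨hU C hC.1 D hD.1, Finset.mem_union_left _ hC.2⟩
  · rw [Finset.erase_union_distrib]

theorem injOn_erase (F : Finset (Finset α)) (x : α) :
    Set.InjOn (fun A : Finset α => A.erase x) (F.filter (fun A => x ∈ A) : Set (Finset α)) := by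
  intro A hA B hB h
  have hA' : A ∈ F.filter (fun A => x ∈ A) := hA
  have hB' : B ∈ F.filter (fun A => x ∈ A) := hB
  rw [Finset.mem_filter] at hA' hB'
  simp only at h
  rw [← Finset.insert_erase hA'.2, ← Finset.insert_erase hB'.2, h]

theorem card_F1 (F : Finset (Finset α)) (x : α) :
    (F1 F x).card = (F.filter (fun A => x ∈ A)).card := by
  unfold F1
  exact Finset.card_image_of_injOn (injOn_erase F x)

theorem card_split (F : Finset (Finset α)) (x : α) :
    F.card = (F0 F x).card + (F1 F x).card := by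
  rw [card_F1]
  unfold F0
  rw [add_comm, Finset.card_filter_add_card_filter_not]

theorem L_split (F : Finset (Finset α)) (x i : α) (hi : i ≠ x) :
    L F i = L (F0 F x) i + L (F1 F x) i := by
  unfold L F0 F1
  rw [Finset.sum_image (injOn_erase F x), add_comm,
    ← Finset.sum_filter_add_sum_filter_not F (fun A => x ∈ A)]
  congr 1
  apply Finset.sum_congr rfl
  intro t _
  unfold sg
  simp [Finset.mem_erase, hi]

theorem L_self (F : Finset (Finset α)) (x : α) :
    L F x = (F1 F x).card - (F0 F x).card := by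
  rw [L_eq, ← card_F1, card_split F x]
  push_cast
  ring

/-- numbers only: the last step -/
theorem final_num (N g0 g1 : ℝ) (hN : 0 < N) (h1 : 0 < g1) (h01 : g1 ≤ g0)
    (hs : 2 * (g0 + g1) ≤ N) (hI : (N - 2 * g1) ^ 2 ≤ 3 * g1 * N)
    (hII : 2 * (g0 + g1) * (N - g0 - g1) ≤ (g0 - g1) * (N + g0 - g1)) : False := by
  have hy : 4 * g1 ≤ N := by linarith
  -- RHS bound
  have e1 : (g0 + g1) * N ≤ 2 * (g0 + g1) * (N - g0 - g1) := by nlinarith
  have e2 : (g0 - g1) * (N + g0 - g1) ≤ (g0 - g1) * (3 / 2 * N - 2 * g1) := by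
    apply mul_le_mul_of_nonneg_left _ (by linarith)
    linarith
  have e3 : (g0 + g1) * N ≤ (g0 - g1) * (3 / 2 * N - 2 * g1) := by linarith
  have e4 : g1 * (5 / 2 * N - 2 * g1) ≤ g0 * (N / 2 - 2 * g1) := by nlinarith
  have e5 : g0 * (N / 2 - 2 * g1) ≤ (N / 2 - g1) * (N / 2 - 2 * g1) := by
    apply mul_le_mul_of_nonneg_right _ (by linarith)
    linarith
  have e6 : 4 * N * g1 - 4 * g1 ^ 2 ≤ N ^ 2 / 4 := by nlinarith
  have e7 : N ^ 2 ≤ 7 * N * g1 - 4 * g1 ^ 2 := by nlinarith
  have e8 : 9 * N * g1 ≤ 12 * g1 ^ 2 := by nlinarith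
  nlinarith

/-- no union-closed family of density at least 3/4 has at most one half-frequent element -/
theorem core (s : Finset α) (F : Finset (Finset α)) (hF : F ⊆ s.powerset)
    (hU : ∀ A ∈ F, ∀ B ∈ F, A ∪ B ∈ F) (hn : 3 ≤ s.card) (hd : 3 * 2 ^ s.card ≤ 4 * F.card)
    (x : α) (hx : x ∈ s)
    (hl : ∀ y ∈ s, y ≠ x → 2 * (F.filter (fun A => y ∈ A)).card < F.card) : False := by
  classical
  set s' := s.erase x with hs'
  have hcs : s.card = s'.card + 1 := by
    rw [hs', Finset.card_erase_of_mem hx]; omega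
  set N : ℝ := (2 : ℝ) ^ s'.card with hNdef
  have hN : (0 : ℝ) < N := by positivity
  have hN2 : (2 : ℝ) ^ s.card = 2 * N := by rw [hcs, pow_succ, hNdef]; ring
  have hN4 : (4 : ℝ) ≤ N := by
    have : (2 : ℝ) ^ 2 ≤ 2 ^ s'.card := pow_le_pow_right₀ (by norm_num) (by omega)
    rw [hNdef]; linarith [this]
  have hF0 := F0_sub s F hF x
  have hF1 := F1_sub s F hF x
  rw [← hs'] at hF0 hF1
  set G0 := s'.powerset \ F0 F x with hG0
  set G1 := s'.powerset \ F1 F x with hG1
  have hcard0 : (G0.card : ℝ) = N - (F0 F x).card := by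
    have := Finset.card_sdiff_add_card_eq_card hF0
    rw [Finset.card_powerset] at this
    have h2 : (G0.card : ℝ) + (F0 F x).card = N := by
      rw [hG0, hNdef]; exact_mod_cast this
    linarith
  have hcard1 : (G1.card : ℝ) = N - (F1 F x).card := by
    have := Finset.card_sdiff_add_card_eq_card hF1
    rw [Finset.card_powerset] at this
    have h2 : (G1.card : ℝ) + (F1 F x).card = N := by
      rw [hG1, hNdef]; exact_mod_cast this
    linarith
  have hsplit : (F.card : ℝ) = (F0 F x).card + (F1 F x).card := by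
    exact_mod_cast card_split F x
  have hdens : 2 * ((G0.card : ℝ) + G1.card) ≤ N := by
    have : (3 : ℝ) * 2 ^ s.card ≤ 4 * F.card := by exact_mod_cast hd
    rw [hN2, hsplit] at this
    rw [hcard0, hcard1]
    linarith
  have hg0 : (0 : ℝ) ≤ G0.card := Nat.cast_nonneg _
  have hg1 : (0 : ℝ) ≤ G1.card := Nat.cast_nonneg _
  -- level one coefficients
  have hp : ∀ i ∈ s', L G0 i = - L (F0 F x) i := fun i hi => L_compl s' _ hF0 i hi
  have hq : ∀ i ∈ s', L G1 i = - L (F1 F x) i := fun i hi => L_compl s' _ hF1 i hi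
  have hpq : ∀ i ∈ s', 0 < L G0 i + L G1 i := by
    intro i hi
    have hix : i ≠ x := Finset.ne_of_mem_erase hi
    have h1 := hl i (Finset.mem_of_mem_erase hi) hix
    have h2 : (2 : ℝ) * ((F.filter (fun A => i ∈ A)).card : ℝ) < F.card := by exact_mod_cast h1
    have h3 := L_eq F i
    have h4 := L_split F x i hix
    rw [hp i hi, hq i hi]
    linarith
  have hFi : ∀ i ∈ s', - L F i = L G0 i + L G1 i := by
    intro i hi
    have hix : i ≠ x := Finset.ne_of_mem_erase hi
    rw [hp i hi, hq i hi, L_split F x i hix]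
    ring
  have hap : ∀ i, |L G0 i| ≤ G0.card := fun i => abs_L_le G0 i
  have haq : ∀ i, |L G1 i| ≤ G1.card := fun i => abs_L_le G1 i
  -- the three key inequalities
  have K := key s F hF hU
  have K0 := key s' (F0 F x) hF0 (F0_union F hU x)
  have K1 := key s' (F1 F x) hF1 (F1_union F hU x)
  have hsum : ∑ i ∈ s, (- L F i) * ((2 : ℝ) ^ s.card - 2 * (- L F i))
      = (- L F x) * (2 * N - 2 * (- L F x))
        + ∑ i ∈ s', (L G0 i + L G1 i) * (2 * N - 2 * (L G0 i + L G1 i)) := by
    rw [← Finset.add_sum_erase s _ hx, hN2]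
    congr 1
    apply Finset.sum_congr rfl
    intro i hi
    rw [hFi i hi]
  have hpos : 0 ≤ ∑ i ∈ s', (L G0 i + L G1 i) * (2 * N - 2 * (L G0 i + L G1 i)) := by
    apply Finset.sum_nonneg
    intro i hi
    apply mul_nonneg (hpq i hi).le
    have h1 := abs_le.1 (hap i)
    have h2 := abs_le.1 (haq i)
    linarith [h1.2, h2.2]
  have hxL : - L F x = G1.card - G0.card := by
    rw [L_self, hcard0, hcard1]; ring
  rw [hsum, hxL, hN2, hsplit] at K
  have hKg : (2 * N - (((F0 F x).card : ℝ) + (F1 F x).card)) = G0.card + G1.card := by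
    rw [hcard0, hcard1]; ring
  rw [hKg] at K
  have e0 : ∑ i ∈ s', (- L (F0 F x) i) * ((2 : ℝ) ^ s'.card - 2 * (- L (F0 F x) i))
      = ∑ i ∈ s', L G0 i * (N - 2 * L G0 i) := by
    apply Finset.sum_congr rfl
    intro i hi
    rw [hp i hi]
  have e1 : ∑ i ∈ s', (- L (F1 F x) i) * ((2 : ℝ) ^ s'.card - 2 * (- L (F1 F x) i))
      = ∑ i ∈ s', L G1 i * (N - 2 * L G1 i) := by
    apply Finset.sum_congr rfl
    intro i hi
    rw [hq i hi]
  rw [e0, ← hNdef, ← hcard0] at K0
  rw [e1, ← hNdef, ← hcard1] at K1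
  -- weight of G1
  set W := ∑ i ∈ s', L G1 i ^ 2 with hW
  have hW0 : 0 ≤ W := Finset.sum_nonneg fun _ _ => sq_nonneg _
  have hWle : W ^ 2 ≤ 3 * (G1.card : ℝ) ^ 3 * N :=
    level_weight s' G1 Finset.sdiff_subset
  have hid : - (4 * W) ≤ ∑ i ∈ s', L G0 i * (N - 2 * L G0 i) + ∑ i ∈ s', L G1 i * (N - 2 * L G1 i) := by
    have : 0 ≤ ∑ i ∈ s', (L G0 i + L G1 i) * (N - 2 * L G0 i + 2 * L G1 i) := by
      apply Finset.sum_nonneg
      intro i hi
      apply mul_nonneg (hpq i hi).le
      have h1 := abs_le.1 (hap i)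
      have h2 := abs_le.1 (haq i)
      linarith [h1.2, h2.1]
    have h2 : ∑ i ∈ s', (L G0 i + L G1 i) * (N - 2 * L G0 i + 2 * L G1 i)
        = ∑ i ∈ s', L G0 i * (N - 2 * L G0 i) + ∑ i ∈ s', L G1 i * (N - 2 * L G1 i) + 4 * W := by
      rw [hW, Finset.mul_sum, ← Finset.sum_add_distrib, ← Finset.sum_add_distrib]
      apply Finset.sum_congr rfl
      intro i _
      ring
    linarith
  have hs'ne : s'.Nonempty := by
    rw [← Finset.card_pos]; omega
  rcases lt_or_ge (G0.card : ℝ) (G1.card : ℝ) with hlt | hge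
  · -- then x is not half-frequent either
    have h1 : 0 < ((G1.card : ℝ) - G0.card) * (2 * N - 2 * ((G1.card : ℝ) - G0.card)) := by
      apply mul_pos (by linarith)
      linarith
    have h2 : 0 ≤ 2 * ((G0.card : ℝ) + G1.card) * (2 * N - 2 * (G0.card + G1.card)) := by
      apply mul_nonneg (by linarith)
      linarith
    linarith
  · have hK01 : 2 * (G0.card : ℝ) * (N - 2 * G0.card) + 2 * (G1.card : ℝ) * (N - 2 * G1.card)
        ≤ 4 * W := by linarith
    have hge2 : (G1.card : ℝ) * (N - 2 * G1.card) ≤ (G0.card : ℝ) * (N - 2 * G0.card) := by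
      nlinarith [mul_nonneg (sub_nonneg.2 hge) (sub_nonneg.2 hdens)]
    have hWge : (G1.card : ℝ) * (N - 2 * G1.card) ≤ W := by linarith
    rcases eq_or_lt_of_le hg1 with h0 | h0
    · -- G1 empty
      have hG1e : G1 = ∅ := by
        rw [← Finset.card_eq_zero]
        exact_mod_cast h0.symm
      have hq0 : ∀ i, L G1 i = 0 := by
        intro i; rw [hG1e]; simp [L]
      have hterm : ∀ i ∈ s', 0 ≤ L G0 i * (N - 2 * L G0 i) := by
        intro i hi
        have h1 := hpq i hi
        rw [hq0 i, add_zero] at h1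
        apply mul_nonneg h1.le
        have h2 := abs_le.1 (hap i)
        linarith [h2.2]
      have hRn : 0 ≤ 2 * (G0.card : ℝ) * (N - 2 * G0.card) := by
        apply mul_nonneg (by linarith)
        linarith
      have hz : ∑ i ∈ s', L G0 i * (N - 2 * L G0 i) = 0 := by
        apply le_antisymm _ (Finset.sum_nonneg hterm)
        linarith
      have hz2 := (Finset.sum_eq_zero_iff_of_nonneg hterm).1 hz
      have hall : ∀ t ∈ G0, t = s' := by
        intro t ht
        apply Finset.Subset.antisymm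
        · have : t ∈ s'.powerset := (Finset.mem_sdiff.1 ht).1
          exact Finset.mem_powerset.1 this
        · intro i hi
          have h1 := hpq i hi
          rw [hq0 i, add_zero] at h1
          have h2 := hz2 i hi
          have h3 : N - 2 * L G0 i = 0 := by
            rcases mul_eq_zero.1 h2 with h | h
            · exact absurd h h1.ne'
            · exact h
          have h4 := (abs_le.1 (hap i)).2
          have h5 : L G0 i = G0.card := by linarith
          have h6 : ∑ u ∈ G0, (1 - sg i u) = 0 := by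
            rw [Finset.sum_sub_distrib]
            have : L G0 i = ∑ u ∈ G0, sg i u := rfl
            rw [← this, h5]
            simp
          have h7 : ∀ u ∈ G0, 0 ≤ 1 - sg i u := by
            intro u _
            unfold sg
            split_ifs <;> norm_num
          have h8 := (Finset.sum_eq_zero_iff_of_nonneg h7).1 h6 t ht
          unfold sg at h8
          by_contra hit
          rw [if_neg hit] at h8
          norm_num at h8
      have hc1 : G0.card ≤ 1 := by
        apply Finset.card_le_one.2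
        intro a ha b hb
        rw [hall a ha, hall b hb]
      obtain ⟨i, hi⟩ := hs'ne
      have h1 := hpq i hi
      rw [hq0 i, add_zero] at h1
      have h2 := hz2 i hi
      have h3 : N - 2 * L G0 i = 0 := by
        rcases mul_eq_zero.1 h2 with h | h
        · exact absurd h h1.ne'
        · exact h
      have h4 := (abs_le.1 (hap i)).2
      have h5 : (G0.card : ℝ) ≤ 1 := by exact_mod_cast hc1
      linarith
    · -- G1 nonempty
      have hN2g : 0 < N - 2 * G1.card := by linarith
      have hI : (N - 2 * (G1.card : ℝ)) ^ 2 ≤ 3 * G1.card * N := by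
        have h1 : ((G1.card : ℝ) * (N - 2 * G1.card)) ^ 2 ≤ 3 * (G1.card : ℝ) ^ 3 * N := by
          refine le_trans ?_ hWle
          apply pow_le_pow_left₀ _ hWge
          positivity
        have h2 : (G1.card : ℝ) ^ 2 * (N - 2 * (G1.card : ℝ)) ^ 2
            ≤ (G1.card : ℝ) ^ 2 * (3 * G1.card * N) := by
          nlinarith
        exact le_of_mul_le_mul_left h2 (by positivity)
      have hII : 2 * ((G0.card : ℝ) + G1.card) * (N - G0.card - G1.card)
          ≤ ((G0.card : ℝ) - G1.card) * (N + G0.card - G1.card) := by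
        nlinarith
      exact final_num N G0.card G1.card hN h0 hge hdens hI hII

end Pool.Agent.Lib.MP_ff7426_co.H59
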