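import Pool.Agent.Lib.MP_ff7426_co.H59.Cube

/-!
The key inequality for union-closed families (helper59): with `N = 2^|s|`, `g = N - |F|` and
`a i = |F| - 2 d(i)`: `∑ a i (N - 2 a i) ≤ - 2 g (N - 2 g)`.
-/

set_option autoImplicit false

namespace Pool.Agent.Lib.MP_ff7426_co.H59

open Finset

variable {α : Type*} [DecidableEq α]

/-- indicator of a family -/
noncomputable def ind (F : Finset (Finset α)) (t : Finset α) : ℝ := if t ∈ F then 1 else 0

theorem sum_ind (s : Finset α) (F : Finset (Finset α)) (hF : F ⊆ s.powerset)
    (w : Finset α → ℝ) : ∑ t ∈ s.powerset, w t * ind F t = ∑ t ∈ F, w t := by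
  unfold ind
  rw [← Finset.sum_subset hF]
  · apply Finset.sum_congr rfl
    intro t ht
    simp [ht]
  · intro t _ ht
    simp [ht]

theorem lev_ind (s : Finset α) (F : Finset (Finset α)) (hF : F ⊆ s.powerset) (i : α)
    (hi : i ∈ s) : lev s (ind F) i = L F i := by
  unfold L lev
  rw [← sum_ind s F hF (sg i)]
  have h1 : ∑ t ∈ s.powerset, sg i t * ind F t
      = ∑ t ∈ (insert i (s.erase i)).powerset, sg i t * ind F t := by
    rw [Finset.insert_erase hi]
  rw [h1, Finset.sum_powerset_insert (Finset.notMem_erase i s), ← Finset.sum_add_distrib]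
  apply Finset.sum_congr rfl
  intro t ht
  have hit : i ∉ t := fun h => (Finset.notMem_erase i s) (Finset.mem_powerset.1 ht h)
  simp [sg, hit]
  ring

/-- the pairs (element, member) whose union leaves the family -/
noncomputable def up (s : Finset α) (F : Finset (Finset α)) : Finset ((_ : α) × Finset α) :=
  s.sigma (fun i => (s.erase i).powerset.filter (fun t => t ∈ F ∧ insert i t ∉ F))

theorem energy_ind (s : Finset α) (F : Finset (Finset α)) (hF : F ⊆ s.powerset) :
    energy s (ind F) = 2 * ((up s F).card : ℝ) + ∑ i ∈ s, L F i := by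
  have hc : ((up s F).card : ℝ) = ∑ i ∈ s, ∑ t ∈ (s.erase i).powerset,
      (if t ∈ F ∧ insert i t ∉ F then (1 : ℝ) else 0) := by
    unfold up
    rw [Finset.card_sigma]
    push_cast
    apply Finset.sum_congr rfl
    intro i _
    rw [Finset.card_filter]
    push_cast
    rfl
  rw [hc, Finset.mul_sum, ← Finset.sum_add_distrib]
  unfold energy
  apply Finset.sum_congr rfl
  intro i hi
  rw [← lev_ind s F hF i hi]
  unfold lev
  rw [Finset.mul_sum, ← Finset.sum_add_distrib]
  apply Finset.sum_congr rfl
  intro t _
  unfold ind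
  by_cases h1 : t ∈ F <;> by_cases h2 : insert i t ∈ F <;> simp [h1, h2] <;> norm_num

theorem up_card (s : Finset α) (F : Finset (Finset α))
    (hU : ∀ A ∈ F, ∀ B ∈ F, A ∪ B ∈ F) :
    (up s F).card + F.card ≤ 2 ^ s.card + (F \ s.powerset).card := by
  have h1 : (up s F).card ≤ (s.powerset \ F).card := by
    apply Finset.card_le_card_of_injOn (fun p => insert p.1 p.2)
    · intro p hp
      have hp' : p ∈ up s F := hp
      unfold up at hp'
      rw [Finset.mem_sigma, Finset.mem_filter, Finset.mem_powerset] at hp'
      have : insert p.1 p.2 ∈ s.powerset \ F := by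
        rw [Finset.mem_sdiff, Finset.mem_powerset]
        refine ⟨?_, hp'.2.2.2⟩
        intro y hy
        rw [Finset.mem_insert] at hy
        rcases hy with rfl | hy
        · exact hp'.1
        · exact Finset.mem_of_mem_erase (hp'.2.1 hy)
      exact this
    · intro p hp r hr hpr
      have hp' : p ∈ up s F := hp
      have hr' : r ∈ up s F := hr
      unfold up at hp' hr'
      rw [Finset.mem_sigma, Finset.mem_filter, Finset.mem_powerset] at hp' hr'
      obtain ⟨i, t⟩ := p
      obtain ⟨j, u⟩ := r
      simp only at hp' hr' hpr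
      have hit : i ∉ t := fun h => (Finset.notMem_erase i s) (hp'.2.1 h)
      have hju : j ∉ u := fun h => (Finset.notMem_erase j s) (hr'.2.1 h)
      by_cases hij : i = j
      · subst hij
        have : t = u := by
          rw [← Finset.erase_insert hit, ← Finset.erase_insert hju, hpr]
        rw [this]
      · exfalso
        have h3 : t ∪ u = insert i t := by
          apply Finset.Subset.antisymm
          · apply Finset.union_subset (Finset.subset_insert i t)
            rw [hpr]
            exact Finset.subset_insert j u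
          · intro y hy
            rw [Finset.mem_union]
            by_cases hyt : y ∈ t
            · exact Or.inl hyt
            · right
              have hyi : y = i := by
                rw [Finset.mem_insert] at hy
                tauto
              have : y ∈ insert j u := hpr ▸ hy
              rw [Finset.mem_insert] at this
              rcases this with h | h
              · exact absurd (hyi.symm.trans h) hij
              · exact h
        have := hU t hp'.2.2.1 u hr'.2.2.1
        rw [h3] at this
        exact hp'.2.2.2 this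
  have h2 : (s.powerset \ F).card + F.card = 2 ^ s.card + (F \ s.powerset).card := by
    have := Finset.card_sdiff_add_card s.powerset F
    have h4 := Finset.card_sdiff_add_card F s.powerset
    rw [Finset.card_powerset] at h4
    rw [this, Finset.union_comm, ← h4]
    ring
  omega

/-- the key inequality -/
theorem key (s : Finset α) (F : Finset (Finset α)) (hF : F ⊆ s.powerset)
    (hU : ∀ A ∈ F, ∀ B ∈ F, A ∪ B ∈ F) :
    ∑ i ∈ s, (- L F i) * ((2 : ℝ) ^ s.card - 2 * (- L F i))
      ≤ - 2 * ((2 : ℝ) ^ s.card - F.card) * ((2 : ℝ) ^ s.card - 2 * ((2 : ℝ) ^ s.card - F.card)) := by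
  have h1 := levelOne s (ind F)
  rw [energy_ind s F hF] at h1
  have hs1 : ∑ t ∈ s.powerset, ind F t = F.card := by
    have := sum_ind s F hF (fun _ => 1)
    simpa using this
  have hs2 : ∑ t ∈ s.powerset, ind F t ^ 2 = F.card := by
    rw [← hs1]
    apply Finset.sum_congr rfl
    intro t _
    unfold ind
    split_ifs <;> norm_num
  have hs3 : ∑ i ∈ s, lev s (ind F) i ^ 2 = ∑ i ∈ s, L F i ^ 2 := by
    apply Finset.sum_congr rfl
    intro i hi
    rw [lev_ind s F hF i hi]
  rw [hs1, hs2, hs3] at h1
  have h2 := up_card s F hU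
  have h3 : (F \ s.powerset).card = 0 := by
    rw [Finset.card_eq_zero, Finset.sdiff_eq_empty_iff_subset]
    exact hF
  rw [h3, add_zero] at h2
  have h4 : ((up s F).card : ℝ) + F.card ≤ (2 : ℝ) ^ s.card := by
    exact_mod_cast h2
  have h5 : ∑ i ∈ s, (- L F i) * ((2 : ℝ) ^ s.card - 2 * (- L F i))
      = - (2 : ℝ) ^ s.card * ∑ i ∈ s, L F i - 2 * ∑ i ∈ s, L F i ^ 2 := by
    rw [Finset.mul_sum, Finset.mul_sum, ← Finset.sum_sub_distrib]
    apply Finset.sum_congr rfl
    intro i _
    ring
  rw [h5]
  have hN : (0 : ℝ) < 2 ^ s.card := by positivity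
  nlinarith [mul_le_mul_of_nonneg_left h4 hN.le]

theorem L_powerset (s : Finset α) (i : α) (hi : i ∈ s) : L s.powerset i = 0 := by
  unfold L
  have h1 : ∑ t ∈ s.powerset, sg i t = ∑ t ∈ (insert i (s.erase i)).powerset, sg i t := by
    rw [Finset.insert_erase hi]
  rw [h1, Finset.sum_powerset_insert (Finset.notMem_erase i s), ← Finset.sum_add_distrib]
  apply Finset.sum_eq_zero
  intro t ht
  have hit : i ∉ t := fun h => (Finset.notMem_erase i s) (Finset.mem_powerset.1 ht h)
  simp [sg, hit]

theorem L_compl (s : Finset α) (F : Finset (Finset α)) (hF : F ⊆ s.powerset) (i : α)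
    (hi : i ∈ s) : L (s.powerset \ F) i = - L F i := by
  have h1 : L (s.powerset \ F) i + L F i = L s.powerset i := by
    unfold L
    exact Finset.sum_sdiff hF
  rw [L_powerset s i hi] at h1
  linarith

theorem abs_L_le (F : Finset (Finset α)) (i : α) : |L F i| ≤ F.card := by
  unfold L
  refine (Finset.abs_sum_le_sum_abs _ _).trans ?_
  have : ∀ t ∈ F, |sg i t| = 1 := by
    intro t _
    unfold sg
    split_ifs <;> simp
  rw [Finset.sum_congr rfl this]
  simp

theorem L_eq (F : Finset (Finset α)) (i : α) :
    L F i = 2 * ((F.filter (fun A => i ∈ A)).card : ℝ) - F.card := by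
  have h1 : (F.card : ℝ) = ∑ _t ∈ F, (1 : ℝ) := by simp
  rw [h1, Finset.card_filter]
  push_cast
  unfold L
  rw [Finset.mul_sum, ← Finset.sum_sub_distrib]
  apply Finset.sum_congr rfl
  intro t _
  unfold sg
  split_ifs <;> norm_num

end Pool.Agent.Lib.MP_ff7426_co.H59
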